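import Mathlib
import Pool.Agent.V5helper14.FB.Stm

/-! # Project FB, job HOLE -/

set_option autoImplicit false

namespace Pool.Agent.V5helper53.FB

open Finset
open Pool.Agent.V5helper14.FB

theorem t_HOLE : S_HOLE := by
  intro N n G hG A B hAB hA hB
  by_contra hcon
  push Not at hcon
  apply hG
  set a := A.orderEmbOfCardLe hA with ha
  set b := B.orderEmbOfCardLe hB with hb
  have haA : ∀ i, a i ∈ A := fun i => A.orderEmbOfCardLe_mem hA i
  have hbB : ∀ i, b i ∈ B := fun i => B.orderEmbOfCardLe_mem hB i
  have hne : ∀ i j, a i ≠ b j := fun i j h =>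
    Finset.disjoint_left.1 hAB (haA i) (h ▸ hbB j)
  have hadj : ∀ i j, Gᶜ.Adj (a i) (b j) := fun i j => by
    rw [SimpleGraph.compl_adj]
    exact ⟨hne i j, hcon _ (haA i) _ (hbB j)⟩
  let φ : completeBipartiteGraph (Fin n) (Fin n) →g Gᶜ :=
    { toFun := Sum.elim a b
      map_rel' := by
        rintro (i | i) (j | j) h
        · simp [completeBipartiteGraph] at h
        · exact hadj i j
        · exact (hadj j i).symm
        · simp [completeBipartiteGraph] at h }
  refine ⟨⟨φ, ?_⟩⟩
  rintro (i | i) (j | j) h
  · exact congrArg Sum.inl (a.injective h)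
  · exact absurd h (hne i j)
  · exact absurd h.symm (hne j i)
  · exact congrArg Sum.inr (b.injective h)

end Pool.Agent.V5helper53.FB
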